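import Mathlib
import Pool.Agent.Q214.RH.All

/-!
# MP_5a22fd_pr: the random harmonic record series has a bounded density
-/

set_option autoImplicit false

namespace Pool.Agent.Results.MP_5a22fd_pr.BoundedDensity

open MeasureTheory ProbabilityTheory

/-- `I 1, I 2, …` are independent with values in `{0, 1}` and `P (I n = 1) = 1 / n` -/
structure Records {Ω : Type} [MeasurableSpace Ω] (P : Measure Ω) (I : ℕ → Ω → ℝ) : Prop where
  meas : ∀ n, 1 ≤ n → Measurable (I n)
  indep : iIndepFun (fun n => I (n + 1)) P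
  vals : ∀ n, 1 ≤ n → ∀ ω, I n ω = 0 ∨ I n ω = 1
  law : ∀ n, 1 ≤ n → P {ω | I n ω = 1} = ENNReal.ofReal (1 / n)

/-- `S_1 = ∑_{n ≥ 1} I n / n` -/
noncomputable def S {Ω : Type} (I : ℕ → Ω → ℝ) (ω : Ω) : ℝ := ∑' n : ℕ, I (n + 1) ω / (n + 1 : ℕ)

/-- The series converges almost surely, and the law `μ_1 = P.map (S I)` has a bounded density:
`μ_1 (E) ≤ C λ (E)` for all Borel sets `E`, with a finite constant `C`; so the Radon–Nikodym
derivative is at most `C` almost everywhere. -/
theorem result {Ω : Type} [MeasurableSpace Ω] (P : Measure Ω) [IsProbabilityMeasure P]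
    (I : ℕ → Ω → ℝ) (hI : Records P I) :
    (∀ᵐ ω ∂P, Summable fun n : ℕ => I (n + 1) ω / (n + 1 : ℕ)) ∧ Measurable (S I) ∧
    P.map (S I) ≪ volume ∧
    ∃ C : ℝ, (∀ E : Set ℝ, MeasurableSet E →
        P.map (S I) E ≤ ENNReal.ofReal C * volume E) ∧
      ∀ᵐ x, (P.map (S I)).rnDeriv volume x ≤ ENNReal.ofReal C := by
  have hX : Pool.Agent.Q214.RH.Rec P (fun n => I (n + 1)) := by
    refine ⟨fun n => hI.meas (n + 1) (by omega), hI.indep, fun n => hI.vals (n + 1) (by omega),
      fun n => ?_⟩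
    rw [hI.law (n + 1) (by omega)]
    push_cast
    rfl
  have hS : S I = Pool.Agent.Q214.RH.S (fun n => I (n + 1)) := by
    funext ω
    unfold S Pool.Agent.Q214.RH.S
    congr 1
    funext n
    push_cast
    rfl
  obtain ⟨B, hB0, hB⟩ := Pool.Agent.Q214.RH.final Ω P _ hX
  have hmeas : Measurable (S I) := by
    rw [hS]
    exact Pool.Agent.Q214.RH.meas_S hX
  rw [← hS] at hB
  have hle : P.map (S I) ≤ ENNReal.ofReal B • (volume : Measure ℝ) := by
    refine Measure.le_iff.2 fun E hE => ?_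
    rw [Measure.smul_apply, smul_eq_mul]
    exact hB E hE
  have hac : P.map (S I) ≪ volume :=
    (Measure.absolutelyContinuous_of_le hle).trans Measure.smul_absolutelyContinuous
  have hP : IsProbabilityMeasure (P.map (S I)) :=
    Measure.isProbabilityMeasure_map hmeas.aemeasurable
  refine ⟨?_, hmeas, hac, B, hB, ?_⟩
  · have := Pool.Agent.Q214.RH.sum_ae Ω P _ hX
    filter_upwards [this] with ω hω
    refine hω.congr fun n => ?_
    push_cast
    rfl
  · refine ae_le_of_forall_setLIntegral_le_of_sigmaFinite (Measure.measurable_rnDeriv _ _)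
      fun E hE _ => ?_
    rw [Measure.setLIntegral_rnDeriv hac, setLIntegral_const]
    exact hB E hE

end Pool.Agent.Results.MP_5a22fd_pr.BoundedDensity
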